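import Pool.Agent.Helper48.KM.Stmts

set_option autoImplicit false

namespace Pool.Agent.Helper48.KM

open MvPolynomial

/-- a root of `X³ + a X + b` near `u` -/
theorem nin_root (a b u : ℂ) : ∃ r : ℂ, r ^ 3 + a * r + b = 0 ∧
    ‖u - r‖ ^ 3 ≤ ‖u ^ 3 + a * u + b‖ := by
  classical
  obtain ⟨r1, h1⟩ : ∃ r1 : ℂ, r1 ^ 3 + a * r1 + b = 0 := by
    obtain ⟨r, hr⟩ := IsAlgClosed.exists_root
      (Polynomial.X ^ 3 + (Polynomial.C a * Polynomial.X + Polynomial.C b) : Polynomial ℂ) (by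
        rw [Polynomial.degree_add_eq_left_of_degree_lt]
        · rw [Polynomial.degree_X_pow]
          decide
        · rw [Polynomial.degree_X_pow]
          exact lt_of_le_of_lt Polynomial.degree_linear_le (by decide))
    refine ⟨r, ?_⟩
    rw [Polynomial.IsRoot.def] at hr
    simp only [Polynomial.eval_add, Polynomial.eval_pow, Polynomial.eval_X, Polynomial.eval_mul,
      Polynomial.eval_C] at hr
    linear_combination hr
  obtain ⟨w, hw⟩ := IsAlgClosed.exists_pow_nat_eq (-3 * r1 ^ 2 - 4 * a) (n := 2) (by norm_num)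
  -- the roots of the quadratic
  have h2 : ∀ x : ℂ, x ^ 3 + a * x + b = (x - r1) * ((x - (-r1 + w) / 2) * (x - (-r1 - w) / 2)) := by
    intro x
    linear_combination h1 + (x / 4 - r1 / 4) * hw
  have h3 : ∀ r : ℂ, (r = r1 ∨ r = (-r1 + w) / 2 ∨ r = (-r1 - w) / 2) →
      r ^ 3 + a * r + b = 0 := by
    intro r hr
    rw [h2]
    rcases hr with rfl | rfl | rfl <;> simp
  have h4 : ‖u ^ 3 + a * u + b‖ = ‖u - r1‖ * (‖u - (-r1 + w) / 2‖ * ‖u - (-r1 - w) / 2‖) := by
    rw [h2, norm_mul, norm_mul]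
  have hA := norm_nonneg (u - r1)
  have hB := norm_nonneg (u - (-r1 + w) / 2)
  have hC := norm_nonneg (u - (-r1 - w) / 2)
  -- the minimum
  by_contra hcon
  push Not at hcon
  have k1 := hcon r1 (h3 _ (Or.inl rfl))
  have k2 := hcon _ (h3 _ (Or.inr (Or.inl rfl)))
  have k3 := hcon _ (h3 _ (Or.inr (Or.inr rfl)))
  rw [h4] at k1 k2 k3
  generalize ‖u - r1‖ = p at *
  generalize ‖u - (-r1 + w) / 2‖ = q at *
  generalize ‖u - (-r1 - w) / 2‖ = s at *
  have key : ∀ a b c : ℝ, 0 ≤ a → a ≤ b → a ≤ c → a ^ 3 ≤ a * (b * c) := by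
    intro a b c ha hb hc
    have h1 : a * a ≤ b * c := mul_le_mul hb hc ha (ha.trans hb)
    calc a ^ 3 = a * (a * a) := by ring
      _ ≤ a * (b * c) := mul_le_mul_of_nonneg_left h1 ha
  rcases le_total p q with h5 | h5
  · rcases le_total p s with h6 | h6
    · linarith [key p q s hA h5 h6]
    · have := key s p q hC h6 (h6.trans h5)
      nlinarith
  · rcases le_total q s with h6 | h6
    · have := key q p s hB h5 h6
      nlinarith
    · have := key s p q hC (h6.trans h5) h6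
      nlinarith

theorem st_NIN : ST_NIN := by
  intro A C g hg P hP
  by_cases h0 : P 0 ≠ 0
  · exact hg P hP h0
  push Not at h0
  by_contra hne
  set u := P 1 with hu
  set v := P 2 with hv
  have hPe : P = ![0, u, v] := by
    funext i
    fin_cases i
    · exact h0
    · rfl
    · rfl
  have hu3 : u ^ 3 + 1 = 0 := by
    have h1 : P 0 * P 2 ^ 2 = P 1 ^ 3 + A * P 1 * P 0 ^ 2 + C * P 0 ^ 3 + 1 := hP
    rw [h0] at h1
    rw [hu]
    linear_combination -h1
  -- the function is continuous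
  let G : ℂ × ℂ → ℂ := fun p => eval ![p.1, p.2, v] g
  have hG : Continuous G := by
    have h1 : Continuous fun x : Fin 3 → ℂ => eval x g := MvPolynomial.continuous_eval g
    have h2 : Continuous fun p : ℂ × ℂ => (![p.1, p.2, v] : Fin 3 → ℂ) := by
      refine continuous_pi fun i => ?_
      fin_cases i
      · exact continuous_fst
      · exact continuous_snd
      · exact continuous_const
    exact h1.comp h2
  have hG0 : G (0, u) ≠ 0 := by
    change eval ![0, u, v] g ≠ 0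
    rw [← hPe]
    exact hne
  have h1 : ∀ᶠ p in nhds ((0 : ℂ), u), G p ≠ 0 := hG.continuousAt.eventually_ne hG0
  rw [Metric.eventually_nhds_iff] at h1
  obtain ⟨δ, hδ, h2⟩ := h1
  -- choose z
  let f : ℂ → ℝ := fun z => ‖u ^ 3 + A * z ^ 2 * u + (C * z ^ 3 + 1 - z * v ^ 2)‖
  have hf : Continuous f := by
    dsimp only [f]
    fun_prop
  have hf0 : f 0 = 0 := by
    dsimp only [f]
    rw [norm_eq_zero]
    linear_combination hu3
  have h3 : ∀ᶠ z in nhds (0 : ℂ), f z < δ ^ 3 := by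
    have := hf.continuousAt (x := (0 : ℂ))
    refine this.eventually_lt continuousAt_const ?_
    rw [hf0]
    positivity
  have h4 : ∀ᶠ z in nhds (0 : ℂ), ‖z‖ < δ := by
    have : Continuous fun z : ℂ => ‖z‖ := continuous_norm
    refine this.continuousAt.eventually_lt continuousAt_const ?_
    simpa using hδ
  have h5 : ∀ᶠ z in nhdsWithin (0 : ℂ) {0}ᶜ, f z < δ ^ 3 ∧ ‖z‖ < δ ∧ z ≠ 0 := by
    have h6 : ∀ᶠ z in nhdsWithin (0 : ℂ) {0}ᶜ, z ≠ 0 := eventually_mem_nhdsWithin
    exact ((h3.filter_mono nhdsWithin_le_nhds).and ((h4.filter_mono nhdsWithin_le_nhds).and h6))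
  obtain ⟨z, hz1, hz2, hz3⟩ := h5.exists
  obtain ⟨r, hr1, hr2⟩ := nin_root (A * z ^ 2) (C * z ^ 3 + 1 - z * v ^ 2) u
  have hr3 : ‖u - r‖ < δ := by
    have h7 : ‖u - r‖ ^ 3 < δ ^ 3 := lt_of_le_of_lt hr2 hz1
    exact lt_of_pow_lt_pow_left₀ 3 hδ.le h7
  have h8 : G (z, r) ≠ 0 := by
    refine h2 ?_
    rw [Prod.dist_eq, max_lt_iff]
    constructor
    · simpa [dist_eq_norm] using hz2
    · change dist r u < δ
      rw [dist_comm, dist_eq_norm]
      exact hr3
  apply h8
  refine hg ![z, r, v] ?_ ?_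
  · change z * v ^ 2 = r ^ 3 + A * r * z ^ 2 + C * z ^ 3 + 1
    linear_combination -hr1
  · exact hz3

end Pool.Agent.Helper48.KM
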