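import Pool.Agent.Helper75.KM.Stmts

/-!
# KM, module COND: conditioning on the value of a random variable
-/

set_option autoImplicit false

namespace Pool.Agent.Helper75.KM

open Pool.Agent.Helper8.Kak Pool.Agent.Helper89.KakGeo

theorem cond_law_pos {Ω W : Type} [Fintype Ω] {p : Ω → ℝ} (hp : IsProb p) (Θ : Ω → W) {ω : Ω}
    (h : 0 < p ω) : 0 < law p Θ (Θ ω) := by
  rw [law_eq_cls]
  exact cls_pos hp.1 _ h

open scoped Classical in
theorem cond_cls {Ω W : Type} [Fintype Ω] (p : Ω → ℝ) (Θ : Ω → W)
    (r : Setoid Ω) (ω ω' : Ω) (hΘ : Θ ω' = Θ ω) :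
    cls (cnd p Θ (Θ ω)) r ω' = cls p (r ⊓ Setoid.ker Θ) ω' / law p Θ (Θ ω) := by
  unfold cls
  rw [Finset.sum_div]
  refine Finset.sum_congr rfl fun x _ => ?_
  unfold cnd
  by_cases h1 : r ω' x
  · by_cases h2 : Θ x = Θ ω
    · have h3 : (r ⊓ Setoid.ker Θ) ω' x := ⟨h1, hΘ.trans h2.symm⟩
      rw [if_pos h1, if_pos h2, if_pos h3]
    · have h3 : ¬ (r ⊓ Setoid.ker Θ) ω' x := fun h => h2 (by
        have h4 : Θ ω' = Θ x := h.2
        rw [← h4, hΘ])
      rw [if_pos h1, if_neg h2, if_neg h3, zero_div]
  · have h3 : ¬ (r ⊓ Setoid.ker Θ) ω' x := fun h => h1 h.1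
    rw [if_neg h1, if_neg h3, zero_div]

theorem st_COND : ST_COND := by
  intro Ω W _ p hp Θ r
  classical
  refine ⟨?_, ?_, ?_, ?_⟩
  · intro ω h
    have hP := cond_law_pos hp Θ h
    constructor
    · intro x
      unfold cnd
      split_ifs
      · exact div_nonneg (hp.1 x) hP.le
      · exact le_rfl
    · have e : ∑ x, cnd p Θ (Θ ω) x = law p Θ (Θ ω) / law p Θ (Θ ω) := by
        conv_rhs => rw [law, Finset.sum_div]
        refine Finset.sum_congr rfl fun x _ => ?_
        unfold cnd
        split_ifs with h1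
        · rfl
        · rw [zero_div]
      rw [e, div_self hP.ne']
  · intro ω ω' h
    have hP := cond_law_pos hp Θ h
    unfold cnd
    by_cases h1 : Θ ω' = Θ ω
    · rw [if_pos h1]
      constructor
      · intro h2
        refine ⟨?_, h1⟩
        by_contra h3
        have h4 : p ω' = 0 := le_antisymm (not_lt.1 h3) (hp.1 ω')
        rw [h4, zero_div] at h2
        exact lt_irrefl _ h2
      · intro h2
        exact div_pos h2.1 hP
    · rw [if_neg h1]
      constructor
      · intro h2
        exact absurd h2 (lt_irrefl _)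
      · intro h2
        exact absurd h2.2 h1
  · intro ω ω' _ hΘ
    exact cond_cls p Θ r ω ω' hΘ
  · -- the average entropy
    set g : Ω → ℝ := fun x => Real.log (cls p (r ⊓ Setoid.ker Θ) x) - Real.log (law p Θ (Θ x)) with hg
    have e1 : ∀ ω, p ω * Ent (cnd p Θ (Θ ω)) r
        = - ∑ x, (if Θ ω = Θ x then p ω else 0) * (p x / law p Θ (Θ x) * g x) := by
      intro ω
      rcases (hp.1 ω).eq_or_lt with h0 | h0
      · rw [← h0, zero_mul]
        simp
      · unfold Ent
        rw [mul_neg, Finset.mul_sum]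
        congr 1
        refine Finset.sum_congr rfl fun x _ => ?_
        by_cases h1 : Θ x = Θ ω
        · rw [if_pos h1.symm]
          have e2 : cnd p Θ (Θ ω) x = p x / law p Θ (Θ x) := by
            unfold cnd
            rw [if_pos h1, h1]
          rw [e2]
          rcases (hp.1 x).eq_or_lt with h2 | h2
          · rw [← h2]
            simp
          · rw [cond_cls p Θ r ω x h1, Real.log_div (cls_pos hp.1 _ h2).ne' (cond_law_pos hp Θ h0).ne',
              hg]
            simp only [h1]
        · rw [if_neg (fun h => h1 h.symm)]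
          have e2 : cnd p Θ (Θ ω) x = 0 := by
            unfold cnd
            rw [if_neg h1]
          rw [e2]
          simp
    have e3 : ∑ ω, p ω * Ent (cnd p Θ (Θ ω)) r = - ∑ x, p x * g x := by
      simp only [e1]
      rw [Finset.sum_neg_distrib, Finset.sum_comm]
      congr 1
      refine Finset.sum_congr rfl fun x _ => ?_
      rw [← Finset.sum_mul]
      rcases (hp.1 x).eq_or_lt with h2 | h2
      · rw [← h2]
        simp
      · have hP := cond_law_pos hp Θ h2
        have e4 : (∑ ω, if Θ ω = Θ x then p ω else 0) = law p Θ (Θ x) := rfl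
        rw [e4]
        field_simp
    rw [e3]
    unfold Ent
    have e5 : ∀ x, law p Θ (Θ x) = cls p (Setoid.ker Θ) x := fun x => law_eq_cls p Θ x
    simp only [hg, e5, mul_sub, Finset.sum_sub_distrib]
    ring

end Pool.Agent.Helper75.KM
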