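import Pool.Agent.Helper75.KM.Stmts

/-!
# KM, module LOC: rescaling of a system living in one dyadic interval of heights
-/

set_option autoImplicit false

namespace Pool.Agent.Helper75.KM

open Pool.Agent.Helper8.Kak Pool.Agent.Helper89.KakGeo

theorem loc_cell_coarse {m N j : ℕ} (hj : j ≤ N) (u : Fin m → ℝ) (i : Fin m) :
    cell ((1 / 2 : ℝ) ^ (N - j)) u i = cell ((1 / 2 : ℝ) ^ N) u i / 2 ^ j := by
  unfold cell
  have h1 : u i / (1 / 2 : ℝ) ^ (N - j) = (u i / (1 / 2 : ℝ) ^ N) / ((2 ^ j : ℕ) : ℝ) := by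
    have h2 : (1 / 2 : ℝ) ^ N = (1 / 2 : ℝ) ^ (N - j) * (1 / 2 : ℝ) ^ j := by
      rw [← pow_add, Nat.sub_add_cancel hj]
    rw [h2]
    push_cast
    rw [div_div, mul_assoc, ← mul_pow]
    norm_num
  rw [h1]
  have h3 := Int.floor_div_natCast (u i / (1 / 2 : ℝ) ^ N) (2 ^ j)
  rw [h3]
  push_cast
  rfl

theorem loc_T {N j : ℕ} (t : Fin (2 ^ N)) (q : ℕ) (hq : (t : ℕ) / 2 ^ (N - j) = q) :
    ((t : ℕ) : ℝ) = (q : ℝ) * 2 ^ (N - j) + ((locT j t : ℕ) : ℝ) := by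
  have h := Nat.div_add_mod (t : ℕ) (2 ^ (N - j))
  rw [hq] at h
  have h1 : ((locT j t : ℕ)) = (t : ℕ) % 2 ^ (N - j) := rfl
  rw [h1]
  have h2 : (((2 ^ (N - j) * q + (t : ℕ) % 2 ^ (N - j) : ℕ)) : ℝ) = ((t : ℕ) : ℝ) := by rw [h]
  rw [← h2]
  push_cast
  ring

theorem loc_ptn {m N j : ℕ} (hj : j ≤ N) {L : Type} (x v : L → Fin m → ℝ) (l : L)
    (t : Fin (2 ^ N)) (q : ℕ) (hq : (t : ℕ) / 2 ^ (N - j) = q) {L' : Type}
    (x' v' : L' → Fin m → ℝ) (l' : L')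
    (hx' : ∀ i, x' l' i = 2 ^ j * (x l i + (q / 2 ^ j : ℝ) * v l i)) (hv' : ∀ i, v' l' i = v l i) :
    ptn (N - j) x' v' l' (locT j t) = ptn N x v l t := by
  funext i
  unfold ptn cell pnt ht
  congr 1
  rw [hx' i, hv' i, loc_T t q hq]
  have h2 : (1 / 2 : ℝ) ^ N = (1 / 2 : ℝ) ^ (N - j) * (1 / 2 : ℝ) ^ j := by
    rw [← pow_add, Nat.sub_add_cancel hj]
  have h3 : ((2 ^ N : ℕ) : ℝ) = 2 ^ (N - j) * 2 ^ j := by
    push_cast
    rw [← pow_add, Nat.sub_add_cancel hj]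
  rw [h2, h3]
  have a0 : (2 : ℝ) ^ (N - j) ≠ 0 := by positivity
  have b0 : (2 : ℝ) ^ j ≠ 0 := by positivity
  push_cast
  rw [one_div, inv_pow, inv_pow]
  field_simp
  ring

theorem st_LOC : ST_LOC := by
  intro m α hTEU ε D hε hD
  obtain ⟨C, hC⟩ := hTEU ε D hε hD
  refine ⟨C, ?_⟩
  intro N L x v hdir Ω _ p hp K l T j hj q f hq hf hconc
  -- a point of the support
  obtain ⟨ω0, h0⟩ : ∃ ω, 0 < p ω := by
    by_contra hcon
    push Not at hcon
    have : ∑ ω, p ω ≤ 0 := Finset.sum_nonpos fun ω _ => hcon ω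
    rw [hp.2] at this
    linarith
  classical
  let L' : Type := {a : L // FF N v j a = f}
  let l0 : L' := ⟨l ω0, hf ω0 h0⟩
  let l' : Ω → L' := fun ω => if h : FF N v j (l ω) = f then ⟨l ω, h⟩ else l0
  have hl' : ∀ ω, 0 < p ω → (l' ω).1 = l ω := by
    intro ω h
    have : l' ω = ⟨l ω, hf ω h⟩ := dif_pos (hf ω h)
    rw [this]
  let x' : L' → Fin m → ℝ := fun a i => 2 ^ j * (x a.1 i + (q / 2 ^ j : ℝ) * v a.1 i)
  let v' : L' → Fin m → ℝ := fun a => v a.1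
  let T' : Ω → Fin (2 ^ (N - j)) := fun ω => locT j (T ω)
  have hdir' : Dirs (N - j) v' := by
    refine ⟨fun a i => hdir.1 a.1 i, ?_⟩
    intro a b hab
    have hab' : cell ((1 / 2 : ℝ) ^ (N - j)) (v a.1) = cell ((1 / 2 : ℝ) ^ (N - j)) (v b.1) := hab
    apply Subtype.ext
    apply hdir.2
    show cell ((1 / 2 : ℝ) ^ N) (v a.1) = cell ((1 / 2 : ℝ) ^ N) (v b.1)
    funext i
    have h1 := congrFun hab' i
    rw [loc_cell_coarse hj, loc_cell_coarse hj] at h1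
    have h2 : cell ((1 / 2 : ℝ) ^ N) (v a.1) i % 2 ^ j = cell ((1 / 2 : ℝ) ^ N) (v b.1) i % 2 ^ j := by
      have e1 : FF N v j a.1 i = f i := congrFun a.2 i
      have e2 : FF N v j b.1 i = f i := congrFun b.2 i
      unfold FF at e1 e2
      rw [e1, e2]
    rw [← Int.ediv_mul_add_emod (cell ((1 / 2 : ℝ) ^ N) (v a.1) i) (2 ^ j),
      ← Int.ediv_mul_add_emod (cell ((1 / 2 : ℝ) ^ N) (v b.1) i) (2 ^ j), h1, h2]
  -- setoids agree on the support
  have hker : ∀ ω ω', 0 < p ω → 0 < p ω' → ((K ⊓ Setoid.ker l') ω ω' ↔ (K ⊓ Setoid.ker l) ω ω') := by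
    intro ω ω' h h'
    constructor
    · rintro ⟨h1, h2⟩
      refine ⟨h1, ?_⟩
      have h3 : l' ω = l' ω' := h2
      show l ω = l ω'
      rw [← hl' ω h, ← hl' ω' h', h3]
    · rintro ⟨h1, h2⟩
      refine ⟨h1, ?_⟩
      have h3 : l ω = l ω' := h2
      show l' ω = l' ω'
      apply Subtype.ext
      rw [hl' ω h, hl' ω' h', h3]
  have hTT : ∀ ω ω', 0 < p ω → 0 < p ω' → (T' ω = T' ω' ↔ T ω = T ω') := by
    intro ω ω' h h'
    constructor
    · intro h1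
      have e1 := Nat.div_add_mod (T ω : ℕ) (2 ^ (N - j))
      have e2 := Nat.div_add_mod (T ω' : ℕ) (2 ^ (N - j))
      have e3 : (T ω : ℕ) % 2 ^ (N - j) = (T ω' : ℕ) % 2 ^ (N - j) := congrArg Fin.val h1
      rw [hq ω h, e3] at e1
      rw [hq ω' h'] at e2
      apply Fin.ext
      exact e1.symm.trans e2
    · intro h1
      show locT j (T ω) = locT j (T ω')
      rw [h1]
  have hPP : ∀ ω, 0 < p ω → ptn (N - j) x' v' (l' ω) (T' ω) = ptn N x v (l ω) (T ω) := by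
    intro ω h
    refine loc_ptn hj x v (l ω) (T ω) q (hq ω h) x' v' (l' ω) ?_ ?_
    · intro i
      show 2 ^ j * (x (l' ω).1 i + (q / 2 ^ j : ℝ) * v (l' ω).1 i) = _
      rw [hl' ω h]
    · intro i
      show v (l' ω).1 i = v (l ω) i
      rw [hl' ω h]
  -- two-ends condition
  have hconc' : Conc p K l' T' D := by
    intro ω h t
    have e1 : (∑ ω', if (K ⊓ Setoid.ker l') ω ω' then p ω' * ld (T' ω') t else 0)
        = ∑ ω', if (K ⊓ Setoid.ker l) ω ω' then p ω' * ld (locT j (T ω')) t else 0 := by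
      refine Finset.sum_congr rfl fun ω' _ => ?_
      rcases (hp.1 ω').eq_or_lt with h1 | h1
      · rw [← h1]
        simp
      · exact if_congr (hker ω ω' h h1) rfl rfl
    have e2 : cls p (K ⊓ Setoid.ker l') ω = cls p (K ⊓ Setoid.ker l) ω := by
      unfold cls
      refine Finset.sum_congr rfl fun ω' _ => ?_
      rcases (hp.1 ω').eq_or_lt with h1 | h1
      · rw [← h1]
        simp
      · exact if_congr (hker ω ω' h h1) rfl rfl
    rw [e2]
    have e3 := hconc ω h t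
    refine le_trans (le_of_eq ?_) e3
    exact e1
  have main := hC (N - j) L' x' v' hdir' Ω p hp K l' T' hconc'
  have a1 : Ent p (K ⊓ Setoid.ker l') = Ent p (K ⊓ Setoid.ker l) :=
    Ent_congr' hp fun ω ω' h h' => hker ω ω' h h'
  have a2 : Ent p (K ⊓ Setoid.ker l' ⊓ Setoid.ker T') = Ent p (K ⊓ Setoid.ker l ⊓ Setoid.ker T) := by
    refine Ent_congr' hp fun ω ω' h h' => ?_
    constructor
    · rintro ⟨h1, h2⟩
      exact ⟨(hker ω ω' h h').1 h1, (hTT ω ω' h h').1 h2⟩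
    · rintro ⟨h1, h2⟩
      exact ⟨(hker ω ω' h h').2 h1, (hTT ω ω' h h').2 h2⟩
  have a3 : Ent p (K ⊓ Setoid.ker T' ⊓ Setoid.ker (fun ω => ptn (N - j) x' v' (l' ω) (T' ω)))
      = Ent p (K ⊓ Setoid.ker T ⊓ Setoid.ker (fun ω => ptn N x v (l ω) (T ω))) := by
    refine Ent_congr' hp fun ω ω' h h' => ?_
    constructor
    · rintro ⟨⟨h1, h2⟩, h3⟩
      refine ⟨⟨h1, (hTT ω ω' h h').1 h2⟩, ?_⟩
      have h4 : ptn (N - j) x' v' (l' ω) (T' ω) = ptn (N - j) x' v' (l' ω') (T' ω') := h3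
      rw [hPP ω h, hPP ω' h'] at h4
      exact h4
    · rintro ⟨⟨h1, h2⟩, h3⟩
      refine ⟨⟨h1, (hTT ω ω' h h').2 h2⟩, ?_⟩
      show ptn (N - j) x' v' (l' ω) (T' ω) = ptn (N - j) x' v' (l' ω') (T' ω')
      rw [hPP ω h, hPP ω' h']
      exact h3
  have b1 : aa p K l' = aa p K l := by unfold aa; rw [a1]
  have b2 : tt p K l' T' = tt p K l T := by unfold tt; rw [a1, a2]
  have b3 : gg p K l' T' (fun ω => ptn (N - j) x' v' (l' ω) (T' ω))
      = gg p K l T (fun ω => ptn N x v (l ω) (T ω)) := by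
    unfold gg
    rw [a3, b2]
  rw [b1, b2, b3, Nat.cast_sub hj] at main
  have hle : ε * ((N : ℝ) - j) ≤ ε * N := by
    refine mul_le_mul_of_nonneg_left ?_ hε.le
    have : (0 : ℝ) ≤ j := Nat.cast_nonneg j
    linarith
  linarith

end Pool.Agent.Helper75.KM
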