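import Pool.Agent.Helper75.KM.StmtsC

/-!
# KM, module TUBE: cubes met by a tube
-/

set_option autoImplicit false

namespace Pool.Agent.Helper75.KM

open Pool.Agent.Helper8.Kak Pool.Agent.Helper89.KakGeo

theorem tube_floor_diff {A B : ℝ} {n : ℕ} (h : |A - B| ≤ n) : |⌊A⌋ - ⌊B⌋| ≤ (n : ℤ) + 1 := by
  rw [abs_le] at h ⊢
  have h1 := Int.floor_le A
  have h2 := Int.lt_floor_add_one A
  have h3 := Int.floor_le B
  have h4 := Int.lt_floor_add_one B
  constructor
  · have : (-((n : ℤ) + 1) : ℝ) ≤ ((⌊A⌋ - ⌊B⌋ : ℤ) : ℝ) := by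
      push_cast
      linarith
    exact_mod_cast this
  · have : ((⌊A⌋ - ⌊B⌋ : ℤ) : ℝ) ≤ (((n : ℤ) + 1 : ℤ) : ℝ) := by
      push_cast
      linarith
    exact_mod_cast this

theorem st_TUBE : ST_TUBE := by
  intro m N δ hδ0 hδ1 hδN i a ω hω hmax y hy z t hyz
  obtain ⟨s, hs, he⟩ := hy
  have hM : (0 : ℝ) < 2 ^ N := by positivity
  -- coordinates of the error
  set e : EE (m + 1) := y - (a + s • ω) with hedef
  have hek : ∀ k, |e k| ≤ δ := fun k => by
    have h1 := PiLp.norm_apply_le e k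
    rw [Real.norm_eq_abs] at h1
    exact h1.trans he
  have hyk : ∀ k, y k = a k + s * ω k + e k := by
    intro k
    have : e k = y k - (a k + s * ω k) := rfl
    rw [this]
    ring
  have hωi : ω i ≠ 0 := by
    intro h0
    have h1 : ω = 0 := by
      ext j
      have h2 := hmax j
      rw [h0, abs_zero] at h2
      have h3 : ω j = 0 := abs_eq_zero.1 (le_antisymm h2 (abs_nonneg _))
      simpa using h3
    rw [h1, norm_zero] at hω
    exact zero_ne_one hω
  have hωi1 : |ω i| ≤ 1 := by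
    have h1 := PiLp.norm_apply_le ω i
    rw [Real.norm_eq_abs, hω] at h1
    exact h1
  have ht0 : (0 : ℝ) ≤ ((t : ℕ) : ℝ) := Nat.cast_nonneg _
  have ht1 : ((t : ℕ) : ℝ) + 1 ≤ 2 ^ N := by
    have := t.2
    have h2 : (((t : ℕ) + 1 : ℕ) : ℝ) ≤ ((2 ^ N : ℕ) : ℝ) := Nat.cast_le.2 this
    push_cast at h2
    exact h2
  have hf1 : ((z : ℝ) * 2 ^ N + ((t : ℕ) : ℝ)) ≤ y i * 2 ^ N := by
    have h := Int.floor_le (y i * 2 ^ N)
    rw [hyz] at h
    push_cast at h
    exact h
  have hf2 : y i * 2 ^ N < (z : ℝ) * 2 ^ N + ((t : ℕ) : ℝ) + 1 := by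
    have h := Int.lt_floor_add_one (y i * 2 ^ N)
    rw [hyz] at h
    push_cast at h
    exact h
  have hz1 : (z : ℝ) ≤ y i := by
    by_contra hcon
    push Not at hcon
    have := mul_lt_mul_of_pos_right hcon hM
    linarith
  have hz2 : y i < (z : ℝ) + 1 := by
    by_contra hcon
    push Not at hcon
    have := mul_le_mul_of_nonneg_right hcon hM.le
    linarith
  constructor
  · have hfl : z = ⌊y i⌋ := by
      symm
      rw [Int.floor_eq_iff]
      exact ⟨hz1, hz2⟩
    have h1 : |y i - a i| < 3 / 2 := by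
      rw [hyk i]
      have : a i + s * ω i + e i - a i = s * ω i + e i := by ring
      rw [this]
      have h2 : |s * ω i| ≤ 1 / 2 := by
        rw [abs_mul]
        calc |s| * |ω i| ≤ (1 / 2) * 1 := mul_le_mul hs hωi1 (abs_nonneg _) (by norm_num)
          _ = 1 / 2 := by norm_num
      have h3 := abs_add_le (s * ω i) (e i)
      have h4 := hek i
      linarith
    rw [hfl]
    rw [abs_lt] at h1
    have g1 := Int.floor_le (y i)
    have g2 := Int.lt_floor_add_one (y i)
    have g3 := Int.floor_le (a i)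
    have g4 := Int.lt_floor_add_one (a i)
    rw [abs_le]
    constructor
    · have : (-3 : ℝ) < ((⌊y i⌋ - ⌊a i⌋ : ℤ) : ℝ) := by
        push_cast
        linarith
      have h5 : (-3 : ℤ) < ⌊y i⌋ - ⌊a i⌋ := by exact_mod_cast this
      linarith
    · have : ((⌊y i⌋ - ⌊a i⌋ : ℤ) : ℝ) < 3 := by
        push_cast
        linarith
      have h5 : ⌊y i⌋ - ⌊a i⌋ < (3 : ℤ) := by exact_mod_cast this
      linarith
  · intro k
    set k' := i.succAbove k with hk'
    have hv : |ω k' / ω i| ≤ 1 := by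
      rw [abs_div]
      exact div_le_one_of_le₀ (hmax k') (abs_nonneg _)
    have e1 : ptn N (fun _ : Unit => posn a ω i z) (fun _ : Unit => slope ω i) () t k
        = ⌊(a k' + ((z : ℝ) - a i) * (ω k' / ω i) + ((t : ℕ) : ℝ) / 2 ^ N * (ω k' / ω i)) * 2 ^ N⌋ := by
      unfold ptn cell pnt ht posn slope
      congr 1
      rw [one_div, inv_pow, div_inv_eq_mul]
      push_cast
      rfl
    rw [e1]
    have key : |y k' * 2 ^ N - (a k' + ((z : ℝ) - a i) * (ω k' / ω i)
        + ((t : ℕ) : ℝ) / 2 ^ N * (ω k' / ω i)) * 2 ^ N| ≤ ((5 : ℕ) : ℝ) := by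
      have e2 : y k' * 2 ^ N - (a k' + ((z : ℝ) - a i) * (ω k' / ω i)
          + ((t : ℕ) : ℝ) / 2 ^ N * (ω k' / ω i)) * 2 ^ N
          = (y i * 2 ^ N - ((z : ℝ) * 2 ^ N + ((t : ℕ) : ℝ))) * (ω k' / ω i)
            + (e k' - e i * (ω k' / ω i)) * 2 ^ N := by
        rw [hyk k', hyk i]
        field_simp
        ring
      rw [e2]
      have b1 : |(y i * 2 ^ N - ((z : ℝ) * 2 ^ N + ((t : ℕ) : ℝ))) * (ω k' / ω i)| ≤ 1 := by
        rw [abs_mul]
        have c1 : |y i * 2 ^ N - ((z : ℝ) * 2 ^ N + ((t : ℕ) : ℝ))| ≤ 1 := by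
          rw [abs_le]
          constructor <;> linarith
        calc _ ≤ 1 * 1 := mul_le_mul c1 hv (abs_nonneg _) (by norm_num)
          _ = 1 := by norm_num
      have b2 : |e k' - e i * (ω k' / ω i)| ≤ 2 * δ := by
        have c1 : |e i * (ω k' / ω i)| ≤ δ := by
          rw [abs_mul]
          calc _ ≤ δ * 1 := mul_le_mul (hek i) hv (abs_nonneg _) hδ0.le
            _ = δ := mul_one _
        have c2 := abs_sub (e k') (e i * (ω k' / ω i))
        have c3 := hek k'
        linarith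
      have b3 : |(e k' - e i * (ω k' / ω i)) * 2 ^ N| ≤ 4 := by
        rw [abs_mul, abs_of_pos hM]
        have c1 : δ * 2 ^ N ≤ 2 := by
          calc δ * 2 ^ N ≤ (2 * (1 / 2) ^ N) * 2 ^ N := mul_le_mul_of_nonneg_right hδN hM.le
            _ = 2 := by
              rw [mul_assoc, ← mul_pow]
              norm_num
        calc |e k' - e i * (ω k' / ω i)| * 2 ^ N ≤ (2 * δ) * 2 ^ N :=
              mul_le_mul_of_nonneg_right b2 hM.le
          _ ≤ 4 := by linarith
      have b4 := abs_add_le ((y i * 2 ^ N - ((z : ℝ) * 2 ^ N + ((t : ℕ) : ℝ))) * (ω k' / ω i))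
        ((e k' - e i * (ω k' / ω i)) * 2 ^ N)
      push_cast
      linarith
    have := tube_floor_diff key
    norm_num at this
    exact this

end Pool.Agent.Helper75.KM
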